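import Pool.Agent.Slp57.Bound

set_option autoImplicit false

universe u

namespace Pool.Agent.Results.MP_d72c68_al.BlockBound

/-- `g` is obtained from `X` with at most `k` multiplications: there is a multiplication chain
`y 0, …, y (k - 1)` from `X` (each term is a product of two elements, each lying in `X` or
standing earlier in the chain) such that `g` lies in `X` or in the chain. -/
def Obtained {G : Type u} [Group G] (X : Set G) (g : G) (k : ℕ) : Prop :=
  ∃ y : Fin k → G,
    (∀ i : Fin k, ∃ a b : G,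
      (a ∈ X ∨ ∃ j : Fin k, j < i ∧ y j = a) ∧
      (b ∈ X ∨ ∃ j : Fin k, j < i ∧ y j = b) ∧
      y i = a * b) ∧
    (g ∈ X ∨ ∃ i : Fin k, y i = g)

theorem obtained_of_got {G : Type u} [Group G] {X : Set G} {n : ℕ} {g : G}
    (h : Slp57.Got X n {g}) : ∃ k : ℕ, k ≤ n ∧ Obtained X g k := by
  obtain ⟨l, h1, h2, h3⟩ := h
  obtain ⟨y, hy, hmem⟩ := Slp57.IsCh.toFin l h1
  refine ⟨l.length, h2, y, hy, ?_⟩
  rcases h3 g rfl with h | h
  · exact Or.inl h
  · exact Or.inr (hmem g h)

/-- With `L = log₂ |G|`: for every nontrivial finite group `G`, generating set `X`, element `g`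
and block length `b ≥ 1`, the element `g` is obtained from `X` with at most
`2 L² / b + (2 ^ b + 14) L` multiplications; consequently, for every `ε > 0` and all
sufficiently large finite groups, at most `(2 + ε) L² / log₂ L` multiplications suffice. -/
theorem result :
    (∀ (G : Type u) [Group G] [Finite G], Nontrivial G → ∀ X : Set G,
      Subgroup.closure X = ⊤ → ∀ (b : ℕ), 0 < b → ∀ g : G,
        ∃ k : ℕ, (k : ℝ) ≤ 2 * (Real.logb 2 (Nat.card G)) ^ 2 / b
            + (2 ^ b + 14) * Real.logb 2 (Nat.card G) ∧ Obtained X g k) ∧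
    (∀ ε : ℝ, 0 < ε → ∃ N : ℕ, ∀ (G : Type u) [Group G] [Finite G], N ≤ Nat.card G →
      ∀ X : Set G, Subgroup.closure X = ⊤ → ∀ g : G,
        ∃ k : ℕ, (k : ℝ) ≤ (2 + ε) * (Real.logb 2 (Nat.card G)) ^ 2
            / Real.logb 2 (Real.logb 2 (Nat.card G)) ∧ Obtained X g k) := by
  have main : ∀ (G : Type u) [Group G] [Finite G], Nontrivial G → ∀ X : Set G,
      Subgroup.closure X = ⊤ → ∀ (b : ℕ), 0 < b → ∀ g : G,
        ∃ k : ℕ, (k : ℝ) ≤ 2 * (Real.logb 2 (Nat.card G)) ^ 2 / b
            + (2 ^ b + 14) * Real.logb 2 (Nat.card G) ∧ Obtained X g k := by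
    intro G _ _ hG X hX b hb g
    obtain ⟨n, hn, hgot⟩ := Slp57.main_real X hX b hb g
    obtain ⟨k, hk, hob⟩ := obtained_of_got hgot
    refine ⟨k, ?_, hob⟩
    have : (k : ℝ) ≤ n := by exact_mod_cast hk
    linarith
  refine ⟨main, ?_⟩
  intro ε hε
  obtain ⟨N, hN⟩ := Slp57.asym ε hε
  refine ⟨max N 2, ?_⟩
  intro G _ _ hcard X hX g
  have hG : Nontrivial G := Finite.one_lt_card_iff_nontrivial.mp (by omega)
  obtain ⟨b, hb, hbound⟩ := hN (Nat.card G) (by omega)
  obtain ⟨k, hk, hob⟩ := main G hG X hX b hb g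
  exact ⟨k, hk.trans hbound, hob⟩

end Pool.Agent.Results.MP_d72c68_al.BlockBound
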