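import Pool.Agent.Slp57.Perm

set_option autoImplicit false

open scoped Pointwise

universe u

namespace Pool.Agent.Results.MP_d72c68_al.ExactFamilies

/-- `g` is obtained from `X` with at most `k` multiplications: there is a multiplication chain
`y 0, …, y (k - 1)` from `X` (each term is a product of two elements, each lying in `X` or
standing earlier in the chain) such that `g` lies in `X` or in the chain. -/
def Obtained {G : Type u} [Group G] (X : Set G) (g : G) (k : ℕ) : Prop :=
  ∃ y : Fin k → G,
    (∀ i : Fin k, ∃ a b : G,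
      (a ∈ X ∨ ∃ j : Fin k, j < i ∧ y j = a) ∧
      (b ∈ X ∨ ∃ j : Fin k, j < i ∧ y j = b) ∧
      y i = a * b) ∧
    (g ∈ X ∨ ∃ i : Fin k, y i = g)

theorem conv {G : Type u} [Group G] [Finite G] [Nontrivial G] {X : Set G} {N : ℕ} {g : G}
    (hN : 2 ^ N < (Nat.card G) ^ 2) (h : Slp57.Got X N {g}) :
    ∃ k : ℕ, (k : ℝ) < 2 * Real.logb 2 (Nat.card G) ∧ Obtained X g k := by
  obtain ⟨l, h1, h2, h3⟩ := h
  obtain ⟨y, hy, hmem⟩ := Slp57.IsCh.toFin l h1
  refine ⟨l.length, ?_, y, hy, ?_⟩
  · have hGpos : (0 : ℝ) < Nat.card G := by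
      have : 0 < Nat.card G := Nat.card_pos
      exact_mod_cast this
    have h5 : (N : ℝ) < Real.logb 2 ((Nat.card G : ℝ) ^ 2) := by
      rw [Real.lt_logb_iff_rpow_lt (by norm_num) (by positivity), Real.rpow_natCast]
      exact_mod_cast hN
    have h6 : Real.logb 2 ((Nat.card G : ℝ) ^ 2) = 2 * Real.logb 2 (Nat.card G) := by
      rw [Real.logb_pow]
      norm_num
    have h7 : (l.length : ℝ) ≤ N := by exact_mod_cast h2
    linarith
  · rcases h3 g rfl with h | h
    · exact Or.inl h
    · exact Or.inr (hmem g h)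

/-- The exact bound of the problem for all nontrivial finite groups with a commutative subgroup
`A` of index two whose elements are inverted by every element outside `A`; for every generating
set and every element. -/
theorem result (G : Type u) [Group G] [Finite G] [Nontrivial G]
    (A : Subgroup G) (hA : A.index = 2) (hc : ∀ a ∈ A, ∀ b ∈ A, a * b = b * a)
    (hi : ∀ g : G, g ∉ A → ∀ a ∈ A, g * a * g⁻¹ = a⁻¹)
    (X : Set G) (hX : Subgroup.closure X = ⊤) (g : G) :
    ∃ k : ℕ, (k : ℝ) < 2 * Real.logb 2 (Nat.card G) ∧ Obtained X g k := by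
  obtain ⟨N, hN, h⟩ := Slp57.dih_nat A hA hc hi X hX g
  exact conv hN h

end Pool.Agent.Results.MP_d72c68_al.ExactFamilies
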