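import Pool.Agent.R5.MC.Basic

/-!
# Fewer than `2 log₂ |G|` multiplications when the generated subgroups permute

Let `1 = H₀ ≤ H₁ ≤ ... ≤ H_r = G` be subgroups with `H_{i+1} = H_i⟨x_i⟩` and `x_i ∈ X`.  Then every
element of `G` is obtained from `X` with fewer than `2 log₂ |G|` multiplications.  This applies to
every generating set of a finite group all of whose subgroups permute (for instance of an abelian
group).
-/

namespace Pool.Agent.Results.MP_d72c68_al.PermutingSubgroups

open Pool.Agent.R5.MC

theorem result :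
    (∀ (G : Type) [Group G] [Fintype G], Nontrivial G →
      ∀ X : Set G, PermReach X (⊤ : Subgroup G) → ∀ g : G, ShortChain G X g) ∧
    (∀ (G : Type) [Group G] [Fintype G], Nontrivial G →
      (∀ H K : Subgroup G, ∀ h ∈ H, ∀ k ∈ K, ∃ h' ∈ H, ∃ k' ∈ K, k * h = h' * k') →
      ∀ X : Set G, Subgroup.closure X = ⊤ → ∀ g : G, ShortChain G X g) ∧
    (∀ (G : Type) [CommGroup G] [Fintype G], Nontrivial G →
      ∀ X : Set G, Subgroup.closure X = ⊤ → ∀ g : G, ShortChain G X g) := by
  refine ⟨?_, ?_, ?_⟩
  · intro G _ _ hG X hX g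
    exact shortChain_of_permReach G hX g
  · intro G _ _ hG hperm X hX g
    refine shortChain_of_permReach G (permReach_top hX ?_) g
    intro H x h hh
    obtain ⟨h', hh', k', hk', e⟩ := hperm H (Subgroup.zpowers x) h hh x
      (Subgroup.mem_zpowers x)
    obtain ⟨z, rfl⟩ := Subgroup.mem_zpowers_iff.1 hk'
    exact ⟨h', hh', z, e⟩
  · intro G _ _ hG X hX g
    refine shortChain_of_permReach G (permReach_top hX ?_) g
    intro H x h hh
    exact ⟨h, hh, 1, by rw [zpow_one, mul_comm]⟩

end Pool.Agent.Results.MP_d72c68_al.PermutingSubgroups
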