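import Pool.Agent.Slp57.Final

set_option autoImplicit false

universe u

namespace Pool.Agent.Results.MP_d72c68_al.SolvableLinear

/-- `g` is obtained from `X` with at most `k` multiplications: there is a multiplication chain
`y 0, …, y (k - 1)` from `X` (each term is a product of two elements, each lying in `X` or
standing earlier in the chain) such that `g` lies in `X` or in the chain. -/
def Obtained {G : Type u} [Group G] (X : Set G) (g : G) (k : ℕ) : Prop :=
  ∃ y : Fin k → G,
    (∀ i : Fin k, ∃ a b : G,
      (a ∈ X ∨ ∃ j : Fin k, j < i ∧ y j = a) ∧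
      (b ∈ X ∨ ∃ j : Fin k, j < i ∧ y j = b) ∧
      y i = a * b) ∧
    (g ∈ X ∨ ∃ i : Fin k, y i = g)

/-- In a nontrivial finite solvable group `G`, for every generating set `X` every element is
obtained from `X` with at most `19 log₂ |G| - 2` multiplications. -/
theorem result (G : Type u) [Group G] [Finite G] [Nontrivial G] [Group.IsSolvable G]
    (X : Set G) (hX : Subgroup.closure X = ⊤) (g : G) :
    ∃ k : ℕ, (k : ℝ) ≤ 19 * Real.logb 2 (Nat.card G) - 2 ∧ Obtained X g k := by
  obtain ⟨n, hn, l, h1, h2, h3⟩ := Slp57.solv_real X hX g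
  obtain ⟨y, hy, hmem⟩ := Slp57.IsCh.toFin l h1
  refine ⟨l.length, ?_, y, hy, ?_⟩
  · have : (l.length : ℝ) ≤ n := by exact_mod_cast h2
    linarith
  · rcases h3 g rfl with h | h
    · exact Or.inl h
    · exact Or.inr (hmem g h)

end Pool.Agent.Results.MP_d72c68_al.SolvableLinear
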